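import Mathlib
import Pool.Agent.H.MP_999952_gt.B

set_option autoImplicit false

namespace Pool.Agent.Results.MP_999952_gt.Group

open Set Topology TopologicalSpace MeasureTheory Pool.Agent.H.MP_5382b1_gt Pool.Agent.H.MP_999952_gt

/-- Any point can be moved to any other by a self-homeomorphism. -/
def Homogeneous (X : Type) [TopologicalSpace X] : Prop :=
  ∀ x y : X, ∃ h : X ≃ₜ X, h x = y

/-- Non-empty, and every non-empty clopen subset is homeomorphic to the whole space. -/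
def StronglyHomogeneous (X : Type) [TopologicalSpace X] : Prop :=
  Nonempty X ∧ ∀ U : Set X, IsClopen U → U.Nonempty → Nonempty (U ≃ₜ X)

theorem result : ∃ (X : Type) (_ : TopologicalSpace X), MetrizableSpace X ∧ SeparableSpace X ∧
    IsTopologicalBasis {U : Set X | IsClopen U} ∧ Nonempty X ∧ Homogeneous X ∧
    ¬ ∃ Y : ℕ → Set X, ⋃ n, Y n = univ ∧ ∀ n, StronglyHomogeneous (Y n) := by
  classical
  obtain ⟨H, hH⟩ := core2
  have : SecondCountableTopology H := IsEmbedding.subtypeVal.secondCountableTopology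
  refine ⟨H, inferInstance, IsEmbedding.subtypeVal.metrizableSpace, inferInstance, ?_, ⟨0⟩, fun x y => ?_, ?_⟩
  · refine isTopologicalBasis_of_isOpen_of_nhds (fun U hU => hU.isOpen) fun x U hx hU => ?_
    obtain ⟨U', h1, rfl⟩ := isOpen_induced_iff.1 hU
    obtain ⟨W, h2, h3, h4⟩ := isTopologicalBasis_isClopen.exists_subset_of_mem_open
      (show x.1 ∈ U' from hx) h1
    exact ⟨_, IsClopen.preimage h2 continuous_subtype_val, h3, preimage_mono h4⟩
  · have h1 : ∀ z : H, x + y + (x + y + z) = z := fun z => Subtype.ext (by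
      simp only [AddSubmonoid.coe_add]
      rw [← add_assoc, two, zero_add])
    refine ⟨⟨⟨fun z => x + y + z, fun z => x + y + z, h1, h1⟩, by fun_prop, by fun_prop⟩,
      Subtype.ext ?_⟩
    change x.1 + y.1 + x.1 = y.1
    rw [add_right_comm, two, zero_add]
  rintro ⟨Y, hY, hs⟩
  have h1 : ∀ a b : ℕ, ∃ (f : V → V) (A U : Set V), Measurable f ∧ MeasurableSet A ∧ InjOn f A ∧
      MapsTo f A U ∧ μ U < (b : ENNReal)⁻¹ ∧ ∀ y : Y a, y.1.1 ∈ A ∧ f y.1.1 ∈ H := by
    intro a b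
    obtain ⟨⟨y⟩, h2⟩ := hs a
    obtain ⟨U, h3, h4, h5⟩ := small_nhd y.1.1 b
    obtain ⟨h⟩ := h2 {z | z.1.1 ∈ U} (h3.preimage (by fun_prop)) ⟨y, h4⟩
    let Z : Set V := Subtype.val '' Y a
    let e : Y a ≃ₜ Z := IsEmbedding.subtypeVal.homeomorphImage (Y a)
    have he : ∀ y : Y a, (e y).1 = y.1.1 := fun y => rfl
    obtain ⟨f, f1, f2⟩ := extend Z (fun z => (h.symm (e.symm z)).1.1.1) (by fun_prop)
    let Z' : Set V := (fun z : Y a => z.1.1) '' {z | z.1.1 ∈ U}
    let e' : {z : Y a | z.1.1 ∈ U} ≃ₜ Z' :=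
      (IsEmbedding.subtypeVal.comp IsEmbedding.subtypeVal).homeomorphImage _
    have he' : ∀ y, (e' y).1 = y.1.1.1 := fun y => rfl
    obtain ⟨g, g1, g2⟩ := extend Z' (fun z => (h (e'.symm z)).1.1) (by fun_prop)
    have f3 : ∀ y : Y a, f y.1.1 = (h.symm y).1.1.1 := fun y => by
      rw [← he, f2, e.symm_apply_apply]
    refine ⟨f, {x | g (f x) = x} ∩ f ⁻¹' U, U, f1,
      (measurableSet_eq_fun (g1.comp f1) measurable_id).inter (f1 h3.isOpen.measurableSet),
      fun x hx z hz hxz => ?_, fun x hx => hx.2, h5, fun y => ⟨⟨?_, ?_⟩, ?_⟩⟩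
    · rw [← show g (f x) = x from hx.1, hxz]
      exact hz.1
    · rw [mem_ofPred_eq, f3, ← he', g2, e'.symm_apply_apply, h.apply_symm_apply]
    · rw [mem_preimage, f3]
      exact (h.symm y).2
    · rw [f3]
      exact (h.symm y).1.1.2
  choose f A U k1 k2 k3 k4 k5 k6 using h1
  obtain ⟨x, hx, h2⟩ := hH (fun i => f i.unpair.1 i.unpair.2) (fun i => A i.unpair.1 i.unpair.2)
    (fun i => U i.unpair.1 i.unpair.2) (fun i => i.unpair.1) (fun i => i.unpair.2)
    (fun _ => k1 _ _) (fun _ => k2 _ _) (fun _ => k3 _ _) (fun _ => k4 _ _) (fun _ => k5 _ _)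
    fun a b => ⟨a.pair b, by simp⟩
  obtain ⟨a, ha⟩ := mem_iUnion.1 (hY.ge (mem_univ (⟨x, hx⟩ : H)))
  obtain ⟨i, rfl, h3⟩ := h2 a
  exact h3 (k6 _ _ ⟨_, ha⟩).1 (k6 _ _ ⟨_, ha⟩).2

end Pool.Agent.Results.MP_999952_gt.Group
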